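import Pool.Agent.K9h63.SpinKostkaQ

open Finset
open Pool.Agent.K9h63.SpinKostka

namespace Pool.Agent.Results.MP_2c9e21_co.SpinKostkaNotPalindromic

theorem X_ne (f : Polynomial ℚ) (hf : f ≠ 0) : algebraMap (Polynomial ℚ) (RatFunc ℚ) f ≠ 0 := by
  rw [Ne, FaithfulSMul.algebraMap_eq_zero_iff]
  exact hf

theorem polyne (f : Polynomial ℚ) (hf : f.eval 2 ≠ 0) : f ≠ 0 := by
  rintro rfl
  simp at hf

theorem t1 : (1 : RatFunc ℚ) - RatFunc.X ≠ 0 := by
  have := X_ne (1 - Polynomial.X) (polyne _ (by norm_num))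
  simpa using this
theorem t2 : (1 : RatFunc ℚ) + RatFunc.X ≠ 0 := by
  have := X_ne (1 + Polynomial.X) (polyne _ (by norm_num))
  simpa using this
theorem t3 : (1 : RatFunc ℚ) + RatFunc.X + RatFunc.X ^ 2 ≠ 0 := by
  have := X_ne (1 + Polynomial.X + Polynomial.X ^ 2) (polyne _ (by norm_num))
  simpa using this

theorem map_ne (f : RatFunc ℚ) (hf : f ≠ 0) : algebraMap (RatFunc ℚ) (RatFn 3) f ≠ 0 := by
  rw [Ne, FaithfulSMul.algebraMap_eq_zero_iff]
  exact hf

theorem tt1 : 1 - tt 3 ≠ 0 := by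
  have := map_ne _ t1
  simpa [tt] using this
theorem tt2 : 1 + tt 3 ≠ 0 := by
  have := map_ne _ t2
  simpa [tt] using this
theorem tt3 : 1 + tt 3 + tt 3 ^ 2 ≠ 0 := by
  have := map_ne _ t3
  simpa [tt] using this

theorem xx_inj (i j : Fin 3) (h : i ≠ j) : xx 3 i ≠ xx 3 j := by
  intro h'
  have := IsFractionRing.injective (MvPolynomial (Fin 3) (RatFunc ℚ)) (RatFn 3) h'
  exact h (MvPolynomial.X_injective this)

theorem am (k : RatFunc ℚ) : algebraMap (RatFunc ℚ) (RatFn 3) k =
    algebraMap (MvPolynomial (Fin 3) (RatFunc ℚ)) (RatFn 3) (MvPolynomial.C k) := by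
  rw [IsScalarTower.algebraMap_apply (RatFunc ℚ) (MvPolynomial (Fin 3) (RatFunc ℚ)) (RatFn 3)]
  rfl

theorem expansion_iff (K : Nat.Partition 6 → RatFunc ℚ) : Expansion 3 p42 K ↔
    Q42 (MvPolynomial.X 0) (MvPolynomial.X 1) (MvPolynomial.X 2 : MvPolynomial (Fin 3) (RatFunc ℚ)) =
      MvPolynomial.C (K q6) * P6 (MvPolynomial.C RatFunc.X) (MvPolynomial.X 0) (MvPolynomial.X 1) (MvPolynomial.X 2) +
      (MvPolynomial.C (K q51) * P51 (MvPolynomial.C RatFunc.X) (MvPolynomial.X 0) (MvPolynomial.X 1) (MvPolynomial.X 2) +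
      (MvPolynomial.C (K p42) * P42 (MvPolynomial.C RatFunc.X) (MvPolynomial.X 0) (MvPolynomial.X 1) (MvPolynomial.X 2) +
      (MvPolynomial.C (K q411) * P411 (MvPolynomial.C RatFunc.X) (MvPolynomial.X 0) (MvPolynomial.X 1) (MvPolynomial.X 2) +
      (MvPolynomial.C (K q33) * P33 (MvPolynomial.C RatFunc.X) (MvPolynomial.X 0) (MvPolynomial.X 1) (MvPolynomial.X 2) +
      (MvPolynomial.C (K p321) * P321 (MvPolynomial.C RatFunc.X) (MvPolynomial.X 0) (MvPolynomial.X 1) (MvPolynomial.X 2) +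
      MvPolynomial.C (K q222) * P222 (MvPolynomial.X 0) (MvPolynomial.X 1) (MvPolynomial.X 2)))))) := by
  unfold Expansion
  rw [sum6, schurQ_eval]
  have h01 := xx_inj 0 1 (by decide)
  have h02 := xx_inj 0 2 (by decide)
  have h12 := xx_inj 1 2 (by decide)
  rw [e6 _ _ tt1 tt2 tt3 h01 h02 h12, e51 _ _ tt1 tt2 tt3 h01 h02 h12,
    e42 _ _ tt1 tt2 tt3 h01 h02 h12, e411 _ _ tt1 tt2 tt3 h01 h02 h12,
    e33 _ _ tt1 tt2 tt3 h01 h02 h12, e321 _ _ tt1 tt2 tt3 h01 h02 h12,
    e222 _ _ tt1 tt2 tt3 h01 h02 h12]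
  rw [← (IsFractionRing.injective (MvPolynomial (Fin 3) (RatFunc ℚ)) (RatFn 3)).eq_iff]
  simp only [am, tt, xx, Q42, P6, P51, P42, P411, P33, P321, P222, m6, m51, m42, m411, m33, m321,
    m222, map_add, map_sub, map_mul, map_pow, map_one, map_ofNat]

theorem evals (K : Nat.Partition 6 → RatFunc ℚ) (h : Expansion 3 p42 K) (a b c : RatFunc ℚ) :
    Q42 a b c = K q6 * P6 RatFunc.X a b c + K q51 * P51 RatFunc.X a b c +
      K p42 * P42 RatFunc.X a b c + K q411 * P411 RatFunc.X a b c + K q33 * P33 RatFunc.X a b c +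
      K p321 * P321 RatFunc.X a b c + K q222 * P222 a b c := by
  have h' := congrArg (MvPolynomial.eval ![a, b, c]) ((expansion_iff K).mp h)
  simp only [Q42, P6, P51, P42, P411, P33, P321, P222, m6, m51, m42, m411, m33, m321,
    m222, map_add, map_sub, map_mul, map_pow, map_one, map_ofNat, MvPolynomial.eval_X,
    MvPolynomial.eval_C] at h'
  simp only [Matrix.cons_val_zero, Matrix.cons_val_one, Matrix.cons_val] at h'
  simp only [Q42, P6, P51, P42, P411, P33, P321, P222, m6, m51, m42, m411, m33, m321, m222]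
  linear_combination h'

theorem value (K : Nat.Partition 6 → RatFunc ℚ) (h : Expansion 3 p42 K) :
    K p321 = 4 * RatFunc.X ^ 2 + 12 * RatFunc.X + 8 := by
  have ev := evals K h
  generalize (RatFunc.X : RatFunc ℚ) = t at ev ⊢
  have hZ := ev 1 0 0
  have hA := ev 1 1 0
  have hB := ev 1 (-1) 0
  have hD := ev 1 2 0
  have hE := ev 1 1 1
  have hF := ev 1 1 (-1)
  have hG := ev 1 1 2
  simp only [Q42, P6, P51, P42, P411, P33, P321, P222, m6, m51, m42, m411, m33, m321, m222] at hZ hA hB hD hE hF hG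
  generalize K q6 = k6 at *
  generalize K q51 = k51 at *
  generalize K p42 = k42 at *
  generalize K q411 = k411 at *
  generalize K q33 = k33 at *
  generalize K p321 = k321 at *
  generalize K q222 = k222 at *
  have c6 : k6 = 0 := by linear_combination -hZ
  subst c6
  have c42 : k42 + (1 - t) * k51 = 4 := by linear_combination (-1/4) * hA - (1/4) * hB
  have c51 : k51 = 0 := by linear_combination (-1/18) * hD + (8/18) * hA - (4/18) * c42
  subst c51
  have c42' : k42 = 4 := by linear_combination c42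
  subst c42'
  have c33 : k33 = 4 + 4 * t := by linear_combination -hA
  subst c33
  have c321 : k321 + (1 - t) * k411 + (1 - t) * (4 + 4 * t) + (1 - t) * (2 - t) * 4 = 24 := by
    linear_combination (-1/12) * (6 * hE - 2 * hF - hG)
  have c411 : k411 + (1 - t) * 4 = 8 := by
    linear_combination (-1/4) * (hE - hF) - 2 * c321
  linear_combination c321 - (1 - t) * c411

/-- The explicit row in three variables. -/
noncomputable def K42 (μ : Nat.Partition 6) : RatFunc ℚ :=
  if μ.parts = {4, 2} then 4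
  else if μ.parts = {4, 1, 1} then 4 * RatFunc.X + 4
  else if μ.parts = {3, 3} then 4 * RatFunc.X + 4
  else if μ.parts = {3, 2, 1} then 4 * RatFunc.X ^ 2 + 12 * RatFunc.X + 8
  else if μ.parts = {2, 2, 2} then
    4 * RatFunc.X ^ 4 + 12 * RatFunc.X ^ 3 + 12 * RatFunc.X ^ 2 + 8 * RatFunc.X + 4
  else 0

theorem exists_three : ∃ K, Expansion 3 p42 K := by
  refine ⟨K42, ?_⟩
  rw [expansion_iff]
  have a1 : K42 q6 = 0 := by
    unfold K42
    rw [if_neg (by decide), if_neg (by decide), if_neg (by decide), if_neg (by decide), if_neg (by decide)]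
  have a2 : K42 q51 = 0 := by
    unfold K42
    rw [if_neg (by decide), if_neg (by decide), if_neg (by decide), if_neg (by decide), if_neg (by decide)]
  have a3 : K42 p42 = 4 := by
    unfold K42
    rw [if_pos (by decide)]
  have a4 : K42 q411 = 4 * RatFunc.X + 4 := by
    unfold K42
    rw [if_neg (by decide), if_pos (by decide)]
  have a5 : K42 q33 = 4 * RatFunc.X + 4 := by
    unfold K42
    rw [if_neg (by decide), if_neg (by decide), if_pos (by decide)]
  have a6 : K42 p321 = 4 * RatFunc.X ^ 2 + 12 * RatFunc.X + 8 := by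
    unfold K42
    rw [if_neg (by decide), if_neg (by decide), if_neg (by decide), if_pos (by decide)]
  have a7 : K42 q222 = 4 * RatFunc.X ^ 4 + 12 * RatFunc.X ^ 3 + 12 * RatFunc.X ^ 2 + 8 * RatFunc.X + 4 := by
    unfold K42
    rw [if_neg (by decide), if_neg (by decide), if_neg (by decide), if_neg (by decide), if_pos (by decide)]
  rw [a1, a2, a3, a4, a5, a6, a7]
  simp only [Q42, P6, P51, P42, P411, P33, P321, P222, m6, m51, m42, m411, m33, m321,
    m222, map_add, map_mul, map_pow, map_ofNat, map_zero]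
  ring

theorem value_poly : (4 * RatFunc.X ^ 2 + 12 * RatFunc.X + 8 : RatFunc ℚ) =
      algebraMap (Polynomial ℚ) (RatFunc ℚ) (4 * Polynomial.X ^ 2 + 12 * Polynomial.X + 8) := by
  simp only [map_add, map_mul, map_pow, map_ofNat, RatFunc.algebraMap_X]

theorem eval_inv : subInv (4 * RatFunc.X ^ 2 + 12 * RatFunc.X + 8) =
    4 * (RatFunc.X⁻¹) ^ 2 + 12 * (RatFunc.X)⁻¹ + 8 := by
  unfold subInv
  rw [value_poly, RatFunc.eval_algebraMap]
  simp

theorem evalTwo (f g : Polynomial ℚ)
    (h : algebraMap (Polynomial ℚ) (RatFunc ℚ) f = algebraMap (Polynomial ℚ) (RatFunc ℚ) g) :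
    f.eval 2 = g.eval 2 := by
  rw [RatFunc.algebraMap_injective ℚ h]

theorem not_pal (m : ℤ) : (RatFunc.X : RatFunc ℚ) ^ m * subInv (4 * RatFunc.X ^ 2 + 12 * RatFunc.X + 8)
    ≠ 4 * RatFunc.X ^ 2 + 12 * RatFunc.X + 8 := by
  intro h
  rw [eval_inv] at h
  have hX : (RatFunc.X : RatFunc ℚ) ≠ 0 := RatFunc.X_ne_zero
  obtain ⟨n, rfl | rfl⟩ := m.eq_nat_or_neg
  · rw [zpow_natCast] at h
    field_simp at h
    have h2 := evalTwo (Polynomial.X ^ n * (4 + 12 * Polynomial.X + 8 * Polynomial.X ^ 2))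
      (Polynomial.X ^ 2 * (4 * Polynomial.X ^ 2 + 12 * Polynomial.X + 8)) (by
        simp only [map_add, map_mul, map_pow, map_ofNat, RatFunc.algebraMap_X]
        linear_combination h)
    simp at h2
    norm_num at h2
    have h3 : (2 : ℕ) ^ n * 60 = 192 := by exact_mod_cast h2
    omega
  · rw [zpow_neg, zpow_natCast] at h
    field_simp at h
    have h2 := evalTwo (4 + 12 * Polynomial.X + 8 * Polynomial.X ^ 2)
      (Polynomial.X ^ n * (Polynomial.X ^ 2 * (4 * Polynomial.X ^ 2 + 12 * Polynomial.X + 8))) (by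
        simp only [map_add, map_mul, map_pow, map_ofNat, RatFunc.algebraMap_X]
        linear_combination h)
    simp at h2
    norm_num at h2
    have h3 : 60 = (2 : ℕ) ^ n * 192 := by exact_mod_cast h2
    omega

/-- In three variables the expansion of `Q_(4,2)` into Hall-Littlewood polynomials exists, in every
such expansion the coefficient at `(3,2,1)` is `4t² + 12t + 8`, and so every family satisfying the
defining expansions of the spin Kostka polynomials has a nonzero non-palindromic member. -/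
theorem result :
    (∀ ξ μ : Nat.Partition 6, ξ.parts = {4, 2} → μ.parts = {3, 2, 1} →
      (∃ K : Nat.Partition 6 → RatFunc ℚ, Expansion 3 ξ K) ∧
      (∀ K : Nat.Partition 6 → RatFunc ℚ, Expansion 3 ξ K →
        K μ = 4 * RatFunc.X ^ 2 + 12 * RatFunc.X + 8)) ∧
    (∀ K : ∀ n : ℕ, Nat.Partition n → Nat.Partition n → RatFunc ℚ, IsSpinKostka K →
      ∃ (n : ℕ) (ξ μ : Nat.Partition n), ξ.parts.Nodup ∧ K n ξ μ ≠ 0 ∧
        ∀ m : ℤ, RatFunc.X ^ m * subInv (K n ξ μ) ≠ K n ξ μ) := by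
  refine ⟨?_, fun K hK => ⟨6, p42, p321, by decide, ?_⟩⟩
  · intro ξ μ h1 h2
    obtain rfl : ξ = p42 := Nat.Partition.ext h1
    obtain rfl : μ = p321 := Nat.Partition.ext h2
    exact ⟨exists_three, value⟩
  · have h := value (K 6 p42) (hK 6 p42 (by decide) 3)
    rw [h]
    refine ⟨?_, not_pal⟩
    rw [value_poly]
    exact X_ne _ (polyne _ (by norm_num))

end Pool.Agent.Results.MP_2c9e21_co.SpinKostkaNotPalindromic
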